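import Pool.Agent.Helper57.NS.Defs

/-!
# NW: number rigidity of the zeros, all window sizes: definitions

Windows `[-R, R]`, zeros up to distance `L`, `1 ≤ R ≤ L ^ (1 - d)`. The scales are
`(1 + k) ^ j ∈ [R (L/R) ^ k, L (L/R) ^ (-k)]`; the weights `bw k R L n` are constant on the scales and changed at `n` scales at
each end such that the test function `ph` is flat on `[-R, R]`.
-/

set_option autoImplicit false
open MeasureTheory Set Filter Topology
open Pool.Agent.Helper57.Zeta Pool.Agent.Helper57.LH Pool.Agent.Helper57.ED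
open Pool.Agent.Helper54.LG (za zb qk SS MM)
open Pool.Agent.Helper93.UG (zc sp)
open Pool.Agent.Helper69.UG (XX NX)
open Pool.Agent.Helper57.TX (QX DP rs)

namespace Pool.Agent.Helper57.NW

/-- The test function with the weights `b j` on the scales `(1 + k) ^ j`, `j ∈ J`. -/
noncomputable def Pb (k : ℝ) (J : Finset ℕ) (b : ℕ → ℝ) (x : ℝ) : ℝ :=
  ∑ j ∈ J, b j * qk 0 (2 * Real.pi * x / (1 + k) ^ j)

/-- Its integral over the line. -/
noncomputable def Mb (k : ℝ) (J : Finset ℕ) (b : ℕ → ℝ) : ℝ := ∑ j ∈ J, b j * (1 + k) ^ j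

/-- The linear statistic over all zeros. -/
noncomputable def Tb (k T : ℝ) (J : Finset ℕ) (b : ℕ → ℝ) (t : ℝ) : ℝ :=
  ∑' ρ : ZS, mx ρ * Pb k J b (((ρ : ℂ).im - t) / sp T)

open Classical in
/-- Its part at distance more than `L` mean spacings. -/
noncomputable def Ob (k T L : ℝ) (J : Finset ℕ) (b : ℕ → ℝ) (t : ℝ) : ℝ :=
  ∑' ρ : ZS, mx ρ * (if |(ρ : ℂ).im - t| ≤ L * sp T then 0 else Pb k J b (((ρ : ℂ).im - t) / sp T))

/-- The prime coefficients. -/
noncomputable def rb (k T : ℝ) (J : Finset ℕ) (b : ℕ → ℝ) (p : ℕ) : ℝ :=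
  ∑ j ∈ J, b j * (if Real.log p ≤ XX T ((1 + k) ^ j) then rs (XX T ((1 + k) ^ j)) p else 0)

/-- The scales: `R (L/R) ^ k ≤ (1 + k) ^ j ≤ L (L/R) ^ (-k)`. -/
noncomputable def Sc (k R L : ℝ) : Finset ℕ :=
  (Finset.range (⌊L / k⌋₊ + 1)).filter fun j => R * (L / R) ^ k ≤ (1 + k) ^ j ∧ (1 + k) ^ j ≤ L * (L / R) ^ (-k)

/-- One step of the flattening of the weights. -/
noncomputable def fl (k : ℝ) (m : ℕ) (b : ℕ → ℝ) (j : ℕ) : ℝ :=
  ((if j = 0 then 0 else b (j - 1)) - b j / (1 + k) ^ (2 * m)) / (1 - 1 / (1 + k) ^ (2 * m))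

/-- The weights, flattened `n` times. -/
noncomputable def bw (k R L : ℝ) : ℕ → ℕ → ℝ
  | 0 => fun j => if j ∈ Sc k R L then 3 / (2 * ((Sc k R L).card : ℝ)) else 0
  | n + 1 => fl k (n + 1) (bw k R L n)

/-- The index set of the weights. -/
noncomputable def Jw (k L : ℝ) (n : ℕ) : Finset ℕ := Finset.range (⌊L / k⌋₊ + 1 + n)

/-- The largest length. -/
noncomputable def Xr (k T R L : ℝ) : ℝ := Real.log T / (R * (L / R) ^ k)

/-- The test function `φ`. -/
noncomputable def ph (k R L : ℝ) (n : ℕ) (x : ℝ) : ℝ := Pb k (Jw k L n) (bw k R L n) x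

/-- The Dirichlet polynomial. -/
noncomputable def Dw (k T R L : ℝ) (n : ℕ) (t : ℝ) : ℝ :=
  (DP (QX (Xr k T R L)) (rb k T (Jw k L n) (bw k R L n)) t).re

/-- Its variance (twice). -/
noncomputable def Vw (k T R L : ℝ) (n : ℕ) : ℝ :=
  ∑ p ∈ QX (Xr k T R L), rb k T (Jw k L n) (bw k R L n) p ^ 2 / p

/-- The integral of `φ` over the line, and over `[-L, L]`. -/
noncomputable def Mw (k R L : ℝ) (n : ℕ) : ℝ := Mb k (Jw k L n) (bw k R L n)

noncomputable def Aw (k R L : ℝ) (n : ℕ) : ℝ := ∫ x in (-L)..L, ph k R L n x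

/-- The linear statistic and its tail. -/
noncomputable def Tw (k T R L : ℝ) (n : ℕ) (t : ℝ) : ℝ := Tb k T (Jw k L n) (bw k R L n) t

noncomputable def Ow (k T R L : ℝ) (n : ℕ) (t : ℝ) : ℝ := Ob k T L (Jw k L n) (bw k R L n) t

/-- The window (`a = 1`) and its double (`a = 2`). -/
noncomputable def Wr (T R a t : ℝ) : Set ℝ := Icc (t - a * R * sp T) (t + a * R * sp T)

open Classical in
/-- The prediction from the zeros outside of `t + W s`, at distance at most `L s`. -/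
noncomputable def prd (k T R L : ℝ) (n : ℕ) (t : ℝ) (W : Set ℝ) : ℝ :=
  Aw k R L n - ∑' ρ : ZS, mx ρ * (if |(ρ : ℂ).im - t| ≤ L * sp T ∧ ((ρ : ℂ).im - t) / sp T ∉ W then
    ph k R L n (((ρ : ℂ).im - t) / sp T) else 0)

/-- The failure of the prediction at `t`. -/
def Bad (k T R L : ℝ) (n : ℕ) (e t : ℝ) : Prop :=
  ∃ W : Set ℝ, W ⊆ Icc (-R) R ∧ e < |Pool.Agent.Helper57.NS.cnt T t W - prd k T R L n t W|

end Pool.Agent.Helper57.NW
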