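import Pool.Agent.Helper60.NW.G1
import Pool.Agent.Helper60.NW.P1
import Pool.Agent.Helper82.NW.SS
import Pool.Agent.Helper82.NW.Var
import Pool.Agent.Helper90.NW.Out
import Pool.Agent.Helper10.NW.Win
import Pool.Agent.Helper84.NW.Fl
import Pool.Agent.Helper4.NW.Flat
import Pool.Agent.Helper7.NW.V0
import Pool.Agent.Helper7.NW.V3
import Pool.Agent.Helper62.NW.Low
import Pool.Agent.Helper62.NW.Point
import Pool.Agent.Helper49.NRS.ReMom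
import Pool.Agent.Helper44.NW.GLow
import Pool.Agent.Helper53.NS.Dev
import Pool.Agent.Helper57.NS.Asm
import Pool.Agent.Helper36.NW.GoodOf
import Pool.Agent.Helper82.NW.VarLow
import Pool.Agent.Helper49.NW.VarW
import Pool.Agent.Helper4.NW.Fin
import Pool.Agent.Helper53.NW.Low

/-! # NW: assembly -/

set_option autoImplicit false
open MeasureTheory Set Filter Topology
open Pool.Agent.Helper57.Zeta Pool.Agent.Helper57.LH Pool.Agent.Helper57.ED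
open Pool.Agent.Helper54.LG (za zb qk SS MM)
open Pool.Agent.Helper93.UG (zc sp)
open Pool.Agent.Helper69.UG (XX NX)
open Pool.Agent.Helper57.TX (QX DP rs)
open Pool.Agent.Helper57.NS (Thick cnt)

namespace Pool.Agent.Helper57.NW

/-- the recursion for the test functions -/
theorem ph_succ {k R L x : ℝ} (n : ℕ) : ph k R L (n + 1) x =
    (ph k R L n (x / (1 + k)) - ph k R L n x / (1 + k) ^ (2 * (n + 1))) / (1 - 1 / (1 + k) ^ (2 * (n + 1))) :=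
  Pool.Agent.Helper4.NW.ph_succ n

theorem ph_zero {k R L x : ℝ} : ph k R L 0 x =
    3 / (2 * ((Sc k R L).card : ℝ)) * ∑ j ∈ Sc k R L, qk 0 (2 * Real.pi * x / (1 + k) ^ j) :=
  Pool.Agent.Helper4.NW.ph_zero

theorem win {d : ℝ} (hd : 0 < d) (hd1 : d ≤ 1) : ∃ C T₀ : ℝ, 1 ≤ C ∧ ∀ T R L : ℝ, T₀ ≤ T → C ≤ L → L ≤ Real.log T →
    1 ≤ R → R ≤ L ^ (1 - d) →
    volume {t : ℝ | t ∈ Icc (T / 2) (3 * T) ∧ L < (zc (Wr T R 2 t) : ℝ)} ≤ ENNReal.ofReal (C * L ^ (-4 : ℝ) * T) :=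
  Pool.Agent.Helper10.NW.win_of Pool.Agent.Helper57.TX.tx1 hd hd1

theorem good_w {k d : ℝ} (hk : 0 < k) (hk8 : k ≤ 1 / 8) (hd : 0 < d) (hd1 : d ≤ 1) (n : ℕ) :
    ∃ c C T₀ : ℝ, 0 < c ∧ 1 ≤ C ∧ ∀ T R L : ℝ, T₀ ≤ T → C ≤ L → L ≤ Real.log T → 1 ≤ R → R ≤ L ^ (1 - d) →
    ∃ E : Set ℝ, volume E ≤ ENNReal.ofReal (C * L ^ (-4 : ℝ) * T) ∧ ∀ t ∈ Icc (T / 2) (3 * T), t ∉ E → ∀ u : ℝ, |u - t| ≤ sp T →
      |Tw k T R L n u - (Mw k R L n - Dw k T R L n t)| ≤ C * L ^ (-c) ∧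
      |Ow k T R L n u - (Mw k R L n - Aw k R L n)| ≤ C * L ^ (-c) ∧
      (zc (Wr T R 1 u) : ℝ) ≤ L := by
  have hκ : 0 < k * d / 2 := by positivity
  have hκ8 : k * d / 2 ≤ 1 / 8 := by nlinarith
  exact Pool.Agent.Helper36.NW.good_w_of hk hk8 hd hd1 n
    (Pool.Agent.Helper36.NW.good_of hk hk8 hκ hκ8 (Pool.Agent.Helper60.NW.tot_sc hk hk8 hκ hκ8)
      (Pool.Agent.Helper82.NW.ss_sc hk hk8 hκ hκ8)
      (Pool.Agent.Helper90.NW.out_sc_of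
        (fun eta B h0 _ hB => Pool.Agent.Helper53.NS.dev_thick Pool.Agent.Helper57.TX.tx1 eta B h0 hB) hk hκ hκ8))
    (Pool.Agent.Helper84.NW.bw_facts hk hk8 hd hd1 n) (win hd hd1)

theorem var_w {k d : ℝ} (hk : 0 < k) (hk8 : k ≤ 1 / 8) (hd : 0 < d) (hd1 : d ≤ 1) (n : ℕ) : ∃ C T₀ : ℝ, 1 ≤ C ∧ ∀ T R L : ℝ,
    T₀ ≤ T → C ≤ L → L ≤ Real.log T → 1 ≤ R → R ≤ L ^ (1 - d) →
    (1 - 7 * k) / Real.log (L / R) ≤ Vw k T R L n ∧ Vw k T R L n ≤ (1 + 6 * k) / Real.log (L / R) :=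
  Pool.Agent.Helper49.NW.var_w_of hk hk8 hd hd1 n Pool.Agent.Helper7.NW.norm_one
    (Pool.Agent.Helper82.NW.var_up0 hk hk8 hd hd1) (Pool.Agent.Helper82.NW.var_low0 hk hk8 hd hd1)
    (Pool.Agent.Helper84.NW.bw_facts hk hk8 hd hd1 n)

theorem dp_up {k d : ℝ} (hk : 0 < k) (hk8 : k ≤ 1 / 8) (hd : 0 < d) (hd1 : d ≤ 1) (n : ℕ) : ∃ C T₀ : ℝ, 1 ≤ C ∧
    ∀ T R L e : ℝ, T₀ ≤ T → C ≤ L → L ≤ Real.log T → 1 ≤ R → R ≤ L ^ (1 - d) → 0 < e → e ≤ 2 →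
    volume {t : ℝ | t ∈ Icc (T / 2) (3 * T) ∧ e < |Dw k T R L n t|} ≤
      ENNReal.ofReal (C * (L / R) ^ (-((1 - 7 * k) * e ^ 2)) * T) := by
  obtain ⟨C, T₀, hC, H⟩ := var_w hk hk8 hd hd1 n
  exact Pool.Agent.Helper60.NW.dp_up_of hk hk8 hd n
    ⟨C, T₀, hC, fun T R L h1 h2 h3 h4 h5 => (H T R L h1 h2 h3 h4 h5).2⟩

theorem dp_low {k d : ℝ} (hk : 0 < k) (hk8 : k ≤ 1 / 32) (hd : 0 < d) (hd1 : d ≤ 1) (n : ℕ) : ∃ C T₀ : ℝ, 1 ≤ C ∧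
    ∀ T R L e : ℝ, T₀ ≤ T → C ≤ L → L ≤ Real.log T → 1 ≤ R → R ≤ L ^ (1 - d) → 0 < e → e ≤ 2 →
    ENNReal.ofReal (1 / C * (L / R) ^ (-((1 + 30 * k) * e ^ 2)) * T) ≤
      volume {t : ℝ | T ≤ t ∧ t ≤ 2 * T ∧ e < |Dw k T R L n t|} :=
  Pool.Agent.Helper62.NW.dp_low_of Pool.Agent.Helper49.NRS.re_mom hk hk8 hd n (var_w hk (by linarith) hd hd1 n)
    (Pool.Agent.Helper7.NW.rb_le hk (by linarith) hd hd1 n)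

theorem point {k d : ℝ} (hk : 0 < k) (hk8 : k ≤ 1 / 8) (hd : 0 < d) (hd1 : d ≤ 1) {n : ℕ} (hn : 1 ≤ k * d * n) :
    ∃ C : ℝ, 1 ≤ C ∧ ∀ (T R L t v : ℝ) (W : Set ℝ), 3 ≤ T → C ≤ L → 1 ≤ R → R ≤ L ^ (1 - d) →
    |Ow k T R L n t - (Mw k R L n - Aw k R L n)| ≤ v → (zc (Wr T R 1 t) : ℝ) ≤ L → W ⊆ Icc (-R) R →
    |(cnt T t W - prd k T R L n t W) - (Tw k T R L n t - Mw k R L n)| ≤ v + C * L ^ (-1 : ℝ) :=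
  Pool.Agent.Helper62.NW.point_of hk hd (Pool.Agent.Helper4.NW.ph_flat hk hk8 hd hd1 hn)

/-- K -/
theorem final_up {k d : ℝ} (hk : 0 < k) (hk8 : k ≤ 1 / 32) (hd : 0 < d) (hd1 : d ≤ 1) {n : ℕ} (hn : 1 ≤ k * d * n) :
    ∃ C T₀ : ℝ, 1 ≤ C ∧ ∀ T R L e : ℝ, T₀ ≤ T → C ≤ L → L ≤ Real.log T → 1 ≤ R → R ≤ L ^ (1 - d) → 0 < e → e ≤ 1 →
    volume {t : ℝ | T ≤ t ∧ t ≤ 2 * T ∧ Bad k T R L n e t} ≤
      ENNReal.ofReal (C * (L / R) ^ (-((1 - 7 * k) * e ^ 2)) * T) :=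
  Pool.Agent.Helper4.NW.final_up_of hk hk8 hd hd1 (good_w hk (by linarith) hd hd1 n) (point hk (by linarith) hd hd1 hn)
    (dp_up hk (by linarith) hd hd1 n)

theorem final_low {k d : ℝ} (hk : 0 < k) (hk8 : k ≤ 1 / 32) (hd : 0 < d) (hd1 : d ≤ 1) {n : ℕ} (hn : 1 ≤ k * d * n) :
    ∃ C T₀ : ℝ, 1 ≤ C ∧ ∀ T R L e : ℝ, T₀ ≤ T → C ≤ L → L ≤ Real.log T → 1 ≤ R → R ≤ L ^ (1 - d) → 0 < e → e ≤ 1 →
    ENNReal.ofReal (1 / C * (L / R) ^ (-((1 + 30 * k) * e ^ 2)) * T) ≤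
      volume {t : ℝ | T ≤ t ∧ t ≤ 2 * T ∧ ∀ W : Set ℝ, W ⊆ Icc (-R) R → e < |cnt T t W - prd k T R L n t W|} :=
  Pool.Agent.Helper53.NW.final_low_of hk hk8 hd (good_w hk (by linarith) hd hd1 n) (point hk (by linarith) hd hd1 hn)
    (dp_low hk hk8 hd hd1 n)

theorem final_g {k d : ℝ} (hk : 0 < k) (hk8 : k ≤ 1 / 32) (hd : 0 < d) (hd1 : d ≤ 1) {n : ℕ} (hn : 1 ≤ k * d * n) :
    ∃ C T₀ : ℝ, 1 ≤ C ∧ ∀ T R L e : ℝ, T₀ ≤ T → C ≤ L → L ≤ Real.log T → 1 ≤ R → R ≤ L ^ (1 - d) → 0 < e → e ≤ 1 →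
    (zc {g : ℝ | T ≤ g ∧ g ≤ 2 * T ∧ Bad k T R L n e g} : ℝ) ≤
      C * (L / R) ^ (-((1 - 8 * k) * e ^ 2)) * (T * Real.log T) :=
  Pool.Agent.Helper4.NW.final_g_of hk hk8 hd hd1 (good_w hk (by linarith) hd hd1 n) (point hk (by linarith) hd hd1 hn)
    (dp_up hk (by linarith) hd hd1 n) Pool.Agent.Helper57.NS.palm

theorem final_glow {k d : ℝ} (hk : 0 < k) (hk8 : k ≤ 1 / 32) (hd : 0 < d) (hd1 : d ≤ 1) {n : ℕ} (hn : 1 ≤ k * d * n) :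
    ∃ C T₀ : ℝ, 1 ≤ C ∧ ∀ T R L e : ℝ, T₀ ≤ T → C ≤ L → L ≤ Real.log T → 1 ≤ R → R ≤ L ^ (1 - d) → 0 < e → e ≤ 1 →
    1 / C * (L / R) ^ (-((1 + 30 * k) * e ^ 2)) * (T * Real.log T) ≤
      (zc {g : ℝ | T ≤ g ∧ g ≤ 2 * T ∧ ∀ W : Set ℝ, W ⊆ Icc (-R) R → e < |cnt T g W - prd k T R L n g W|} : ℝ) :=
  Pool.Agent.Helper44.NW.final_glow_of hk hk8 hd (good_w hk (by linarith) hd hd1 n) (point hk (by linarith) hd hd1 hn)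
    (dp_low hk hk8 hd hd1 n)

end Pool.Agent.Helper57.NW
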